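import Pool.Agent.H60.HED.Defs

/-!
# Module CLO: point evaluations at close points are close, uniformly on the sphere
-/

set_option autoImplicit false

namespace Pool.Agent.H60.HED

theorem clo : S_CLO := by
  intro k t δ hδ
  have hcont : Continuous (fun t' : ℝ => ∑ j : Fin (k + 1), |t' ^ (j : ℕ) - t ^ (j : ℕ)|) := by
    fun_prop
  have h := Metric.continuous_iff.1 hcont t δ hδ
  obtain ⟨η, hη, h2⟩ := h
  refine ⟨η, hη, fun t' ht' x hx => ?_⟩
  have h3 := h2 t' (by rw [Real.dist_eq]; exact ht')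
  rw [Real.dist_eq] at h3
  have hx1 : ‖x‖ = 1 := by simpa using hx
  have hxj : ∀ j, |x j| ≤ 1 := by
    intro j
    have := norm_le_pi_norm x j
    rw [hx1] at this
    exact this
  calc |pe k x t' - pe k x t|
      = |∑ j : Fin (k + 1), x j * (t' ^ (j : ℕ) - t ^ (j : ℕ))| := by
        unfold pe
        rw [← Finset.sum_sub_distrib]
        congr 1
        exact Finset.sum_congr rfl fun j _ => by ring
    _ ≤ ∑ j : Fin (k + 1), |x j * (t' ^ (j : ℕ) - t ^ (j : ℕ))| := Finset.abs_sum_le_sum_abs _ _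
    _ ≤ ∑ j : Fin (k + 1), |t' ^ (j : ℕ) - t ^ (j : ℕ)| := by
        apply Finset.sum_le_sum
        intro j _
        rw [abs_mul]
        exact mul_le_of_le_one_left (abs_nonneg _) (hxj j)
    _ < δ := by
        have h4 : (∑ j : Fin (k + 1), |t ^ (j : ℕ) - t ^ (j : ℕ)|) = 0 := by simp
        simp only [h4, sub_zero] at h3
        exact (le_abs_self _).trans_lt h3

end Pool.Agent.H60.HED
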